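import Pool.Agent.Q233.TFWe

/-!
# MP_f2f621_mp: `3X - 2K` is not weakly superadditive in neutral Thomas-Fermi theory

For any two distinct points `P, Q` and any vector `e ≠ 0`, the configuration `P, P + εe, Q, Q + εe` of four
nuclei violates weak superadditivity of `3X - 2K` for all sufficiently small `ε > 0`: there is `t > 0` with
`(3X-2K)(t,t,t,t) < (3X-2K)(t,0,t,0) + (3X-2K)(0,t,0,t)`.
-/

set_option autoImplicit false
open MeasureTheory Set Filter Topology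

namespace Pool.Agent.Results.MP_f2f621_mp.NotWeaklySuperadditive

/-- three dimensional Euclidean space -/
abbrev E3 := EuclideanSpace ℝ (Fin 3)

/-- the densities on which the TF functional is defined -/
def Admissible (ρ : E3 → ℝ) : Prop :=
  Measurable ρ ∧ (∀ x, 0 ≤ ρ x) ∧ Integrable ρ ∧ Integrable (fun x => ρ x ^ (5/3 : ℝ))

/-- the TF functional `ξ`, nuclear repulsion `U` included -/
noncomputable def xi {k : ℕ} (R : Fin k → E3) (z : Fin k → ℝ) (ρ : E3 → ℝ) : ℝ :=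
  3/5 * (∫ x, ρ x ^ (5/3 : ℝ)) - (∫ x, (∑ j, z j / ‖x - R j‖) * ρ x)
    + 1/2 * (∫ x, ∫ y, ρ x * ρ y / ‖x - y‖)
    + ∑ i, ∑ j ∈ Finset.Ioi i, z i * z j / ‖R i - R j‖

/-- `ρ` minimises `ξ` among the admissible densities with `∫ ρ = Z = ∑ zⱼ` -/
def IsMinimiser {k : ℕ} (R : Fin k → E3) (z : Fin k → ℝ) (ρ : E3 → ℝ) : Prop :=
  Admissible ρ ∧ ∫ x, ρ x = ∑ j, z j ∧ ∀ σ, Admissible σ → ∫ x, σ x = ∑ j, z j → xi R z ρ ≤ xi R z σ

/-- the neutral TF density (the minimiser; it exists and is unique almost everywhere) -/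
noncomputable def density {k : ℕ} (R : Fin k → E3) (z : Fin k → ℝ) : E3 → ℝ :=
  Classical.epsilon (IsMinimiser R z)

/-- the kinetic energy `K(z) = 3/5 ∫ ρ^{5/3}` of the neutral TF density -/
noncomputable def K {k : ℕ} (R : Fin k → E3) (z : Fin k → ℝ) : ℝ := 3/5 * ∫ x, density R z x ^ (5/3 : ℝ)

/-- the partial derivative `Kᵢ = ∂K/∂zᵢ` on the closed orthant (one-sided where `zᵢ = 0`) -/
noncomputable def dK {k : ℕ} (R : Fin k → E3) (z : Fin k → ℝ) (i : Fin k) : ℝ :=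
  derivWithin (fun s => K R (Function.update z i s)) (Ici 0) (z i)

/-- `X = 3K - ∑ zᵢ Kᵢ` -/
noncomputable def X {k : ℕ} (R : Fin k → E3) (z : Fin k → ℝ) : ℝ := 3 * K R z - ∑ i, z i * dK R z i

/-- `X~ = 3X - 2K` -/
noncomputable def Xt {k : ℕ} (R : Fin k → E3) (z : Fin k → ℝ) : ℝ := 3 * X R z - 2 * K R z

/-- weak superadditivity on `ℝ₊ᵏ`: superadditivity for pairs with disjoint supports -/
def WeaklySuperadditive {k : ℕ} (f : (Fin k → ℝ) → ℝ) : Prop :=
  ∀ z₁ z₂ : Fin k → ℝ, (∀ j, 0 ≤ z₁ j) → (∀ j, 0 ≤ z₂ j) → (∀ j, z₁ j * z₂ j = 0) → f z₁ + f z₂ ≤ f (z₁ + z₂)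

section

open Pool.Agent.Helper557.TFP Pool.Agent.H9R2.TF Pool.Agent.Q233.TFTeller Pool.Agent.Q233.TFMol
  Pool.Agent.Q233.TFIon Pool.Agent.Q233.TFDil Pool.Agent.Q233.TFWc Pool.Agent.Q233.TFWd

lemma rm_min {k : ℕ} (R : Fin k → EuclideanSpace ℝ (Fin 3)) {z : Fin k → ℝ} (hz : ∀ j, 0 ≤ z j) : IsMinimiser R z (rm z R) := by
  have h := rm_EL hz R
  refine ⟨adm_of_nice h.nice h.nonneg, rm_mass hz R, fun σ hσ hm => ?_⟩
  have h1 := EF_min h (σ := σ) hσ (hm.trans (rm_mass hz R).symm)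
  have e1 : ∀ ρ, xi R z ρ = EF z R ρ + UU' z R := fun ρ => xi_EF z R ρ
  rw [e1, e1]
  linarith

lemma min_ae {k : ℕ} (R : Fin k → EuclideanSpace ℝ (Fin 3)) {z : Fin k → ℝ} (hz : ∀ j, 0 ≤ z j)
    {σ : EuclideanSpace ℝ (Fin 3) → ℝ} (hσ : IsMinimiser R z σ) : σ =ᵐ[volume] rm z R := by
  refine Pool.Agent.Q233.TFWe.eq_of_le (rm_EL hz R) hσ.1 ?_
  have h := rm_EL hz R
  have h1 := hσ.2.2 (rm z R) (adm_of_nice h.nice h.nonneg) (rm_mass hz R)
  have e1 : ∀ ρ, xi R z ρ = EF z R ρ + UU' z R := fun ρ => xi_EF z R ρ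
  rw [e1, e1] at h1
  linarith

lemma density_min {k : ℕ} (R : Fin k → EuclideanSpace ℝ (Fin 3)) {z : Fin k → ℝ} (hz : ∀ j, 0 ≤ z j) :
    IsMinimiser R z (density R z) := Classical.epsilon_spec ⟨_, rm_min R hz⟩

lemma K_eq {k : ℕ} (R : Fin k → EuclideanSpace ℝ (Fin 3)) {z : Fin k → ℝ} (hz : ∀ j, 0 ≤ z j) : K R z = KK R z := by
  unfold K Pool.Agent.Q233.TFTeller.KK
  congr 1
  refine integral_congr_ae ?_
  filter_upwards [min_ae R hz (density_min R hz)] with x hx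
  rw [hx]

lemma K_update {k : ℕ} (R : Fin k → EuclideanSpace ℝ (Fin 3)) {z : Fin k → ℝ} (hz : ∀ j, 0 ≤ z j) (i : Fin k) {s : ℝ} (hs : 0 ≤ s) :
    K R (Function.update z i s) = KK R (Function.update z i s) := by
  refine K_eq R (fun j => ?_)
  rcases eq_or_ne j i with h | h
  · subst h; rw [Function.update_self]; exact hs
  · rw [Function.update_of_ne h]; exact hz j

lemma dK_eq {k : ℕ} (R : Fin k → EuclideanSpace ℝ (Fin 3)) {z : Fin k → ℝ} (hz : ∀ j, 0 ≤ z j) (i : Fin k) :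
    dK R z i = derivWithin (fun s => KK R (Function.update z i s)) (Ici 0) (z i) :=
  derivWithin_congr (fun _ hs => K_update R hz i hs) (K_update R hz i (hz i))

lemma Xt_eq {k : ℕ} (R : Fin k → EuclideanSpace ℝ (Fin 3)) {z : Fin k → ℝ} (hz : ∀ j, 0 ≤ z j) :
    Xt R z = Pool.Agent.Q233.TFWc.Xt R z := by
  unfold Xt X Pool.Agent.Q233.TFWc.Xt th
  simp only [K_eq R hz, dK_eq R hz]
  ring

end

/-- four nuclei: two nearby pairs -/
def pairs (P Q e : E3) (ε : ℝ) : Fin 4 → E3 := ![P, P + ε • e, Q, Q + ε • e]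

lemma pairs_inj {P Q e : E3} (hPQ : P ≠ Q) (he : e ≠ 0) : ∀ᶠ ε in 𝓝[>] (0:ℝ), Function.Injective (pairs P Q e ε) := by
  have h1 : ∀ S T : E3, S ≠ T → ∀ᶠ ε in 𝓝[>] (0:ℝ), S + ε • e ≠ T := by
    intro S T hST
    have c : Continuous (fun ε : ℝ => S + ε • e) := continuous_const.add (continuous_id.smul continuous_const)
    have : Tendsto (fun ε : ℝ => S + ε • e) (𝓝[>] 0) (𝓝 S) := by
      have := (c.tendsto 0).mono_left (nhdsWithin_le_nhds (s := Ioi 0))
      simpa using this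
    exact this.eventually_ne hST
  filter_upwards [h1 P Q hPQ, h1 Q P hPQ.symm, self_mem_nhdsWithin] with ε a1 a2 a3
  have hε : (0:ℝ) < ε := a3
  have a4 : ∀ S : E3, S + ε • e ≠ S := by
    intro S h
    have : ε • e = 0 := by simpa using h
    rcases smul_eq_zero.1 this with h' | h'
    · exact hε.ne' h'
    · exact he h'
  have a5 : P + ε • e ≠ Q + ε • e := fun h => hPQ (add_right_cancel h)
  intro i j hij
  fin_cases i <;> fin_cases j <;>
    first
    | rfl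
    | exact absurd hij (a4 P)
    | exact absurd hij (a4 Q)
    | exact absurd hij (a4 P).symm
    | exact absurd hij (a4 Q).symm
    | exact absurd hij a1
    | exact absurd hij a1.symm
    | exact absurd hij a2
    | exact absurd hij a2.symm
    | exact absurd hij a5
    | exact absurd hij a5.symm
    | exact absurd hij hPQ
    | exact absurd hij hPQ.symm

/-- **`3X - 2K` is not weakly superadditive.** For `z ∈ ℝ₊ᵏ` the minimiser exists and is unique and `K` has a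
derivative with respect to every positive charge. For all `P ≠ Q`, `e ≠ 0` and all sufficiently small `ε > 0` the
four nuclei `P, P + εe, Q, Q + εe` are distinct and for some `t > 0`
`(3X-2K)(t,t,t,t) < (3X-2K)(t,0,t,0) + (3X-2K)(0,t,0,t)`. In particular it is not true that `3X - 2K` is weakly
superadditive for every choice of distinct positions. -/
theorem result :
    (∀ (k : ℕ) (R : Fin k → E3) (z : Fin k → ℝ), (∀ j, 0 ≤ z j) →
      IsMinimiser R z (density R z) ∧ (∀ σ, IsMinimiser R z σ → σ =ᵐ[volume] density R z) ∧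
      ∀ i, 0 < z i → DifferentiableAt ℝ (fun s => K R (Function.update z i s)) (z i)) ∧
    (∀ P Q e : E3, P ≠ Q → e ≠ 0 → ∀ᶠ ε in 𝓝[>] (0:ℝ), Function.Injective (pairs P Q e ε) ∧
      ∃ t : ℝ, 0 < t ∧ Xt (pairs P Q e ε) ![t, t, t, t] <
        Xt (pairs P Q e ε) ![t, 0, t, 0] + Xt (pairs P Q e ε) ![0, t, 0, t]) ∧
    ¬ (∀ k : ℕ, 1 ≤ k → ∀ R : Fin k → E3, Function.Injective R → WeaklySuperadditive (Xt R)) := by
  have main : ∀ P Q e : E3, P ≠ Q → e ≠ 0 → ∀ᶠ ε in 𝓝[>] (0:ℝ), Function.Injective (pairs P Q e ε) ∧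
      ∃ t : ℝ, 0 < t ∧ Xt (pairs P Q e ε) ![t, t, t, t] <
        Xt (pairs P Q e ε) ![t, 0, t, 0] + Xt (pairs P Q e ε) ![0, t, 0, t] := by
    intro P Q e hPQ he
    have h := Pool.Agent.Q233.TFWd.main P Q e hPQ
    rw [Filter.not_frequently] at h
    filter_upwards [h, pairs_inj hPQ he] with ε h1 h2
    refine ⟨h2, ?_⟩
    push Not at h1
    obtain ⟨t, ht, h3⟩ := h1
    refine ⟨t, ht, ?_⟩
    have e1 : Pool.Agent.Q233.TFWc.sz t Pool.Agent.Q233.TFWd.c1 = ![t, 0, t, 0] := by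
      funext j; fin_cases j <;> simp [Pool.Agent.Q233.TFWc.sz, Pool.Agent.Q233.TFWd.c1]
    have e2 : Pool.Agent.Q233.TFWc.sz t Pool.Agent.Q233.TFWd.c2 = ![0, t, 0, t] := by
      funext j; fin_cases j <;> simp [Pool.Agent.Q233.TFWc.sz, Pool.Agent.Q233.TFWd.c2]
    have e3 : Pool.Agent.Q233.TFWc.sz t (fun j => Pool.Agent.Q233.TFWd.c1 j + Pool.Agent.Q233.TFWd.c2 j) = ![t, t, t, t] := by
      funext j; fin_cases j <;> simp [Pool.Agent.Q233.TFWc.sz, Pool.Agent.Q233.TFWd.c1, Pool.Agent.Q233.TFWd.c2]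
    rw [e1, e2, e3] at h3
    have n1 : ∀ j : Fin 4, 0 ≤ (![t, 0, t, 0] : Fin 4 → ℝ) j := by intro j; fin_cases j <;> simp [ht.le]
    have n2 : ∀ j : Fin 4, 0 ≤ (![0, t, 0, t] : Fin 4 → ℝ) j := by intro j; fin_cases j <;> simp [ht.le]
    have n3 : ∀ j : Fin 4, 0 ≤ (![t, t, t, t] : Fin 4 → ℝ) j := by intro j; fin_cases j <;> simp [ht.le]
    rw [Xt_eq _ n1, Xt_eq _ n2, Xt_eq _ n3]
    exact h3
  refine ⟨fun k R z hz => ⟨density_min R hz, fun σ hσ => ?_, fun i hi => ?_⟩, main, fun hall => ?_⟩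
  · exact (min_ae R hz hσ).trans (min_ae R hz (density_min R hz)).symm
  · have h := (Pool.Agent.Q233.TFWc.KK_partial hz R hi).differentiableAt
    refine h.congr_of_eventuallyEq ?_
    filter_upwards [Ioi_mem_nhds hi] with s hs using K_update R hz i (mem_Ioi.1 hs).le
  · obtain ⟨ε, hinj, t, ht, hlt⟩ := (main 0 (EuclideanSpace.single 0 1) (EuclideanSpace.single 0 1) (by
      intro h
      have := congrArg (fun v : E3 => v 0) h
      simp at this) (by
      intro h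
      have := congrArg (fun v : E3 => v 0) h
      simp at this)).exists
    have n1 : ∀ j : Fin 4, 0 ≤ (![t, 0, t, 0] : Fin 4 → ℝ) j := by intro j; fin_cases j <;> simp [ht.le]
    have n2 : ∀ j : Fin 4, 0 ≤ (![0, t, 0, t] : Fin 4 → ℝ) j := by intro j; fin_cases j <;> simp [ht.le]
    have h := hall 4 (by norm_num) _ hinj ![t, 0, t, 0] ![0, t, 0, t] n1 n2 (by intro j; fin_cases j <;> simp)
    have e : (![t, 0, t, 0] + ![0, t, 0, t] : Fin 4 → ℝ) = ![t, t, t, t] := by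
      funext j; fin_cases j <;> simp
    rw [e] at h
    linarith

end Pool.Agent.Results.MP_f2f621_mp.NotWeaklySuperadditive
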